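import Pool.Agent.Helper62.Mink.Basic

/-! Support functions of convex bodies in `E n` (module M1 of MP_ae3a4d_gt). -/

namespace Pool.Agent.Helper62.Mink

open MeasureTheory Metric Set
open scoped RealInnerProductSpace ContDiff NNReal Pointwise

theorem supp_bddAbove {n : ℕ} (K : ConvexBody (E n)) (u : E n) :
    BddAbove ((fun x : E n => (inner ℝ x u : ℝ)) '' (K : Set (E n))) :=
  (K.isCompact.image (by fun_prop)).bddAbove

theorem inner_le_supp {n : ℕ} (K : ConvexBody (E n)) {x : E n} (hx : x ∈ K) (u : E n) :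
    (inner ℝ x u : ℝ) ≤ supp K u :=
  le_csSup (supp_bddAbove K u) ⟨x, hx, rfl⟩

theorem supp_le {n : ℕ} (K : ConvexBody (E n)) {u : E n} {c : ℝ}
    (h : ∀ x ∈ K, (inner ℝ x u : ℝ) ≤ c) : supp K u ≤ c := by
  refine csSup_le (K.nonempty.image _) ?_
  rintro _ ⟨x, hx, rfl⟩
  exact h x hx

theorem exists_supp_eq {n : ℕ} (K : ConvexBody (E n)) (u : E n) :
    ∃ x ∈ K, (inner ℝ x u : ℝ) = supp K u := by
  obtain ⟨x, hx, hxu⟩ := (K.isCompact.image (f := fun x : E n => (inner ℝ x u : ℝ))
    (by fun_prop)).sSup_mem (K.nonempty.image _)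
  exact ⟨x, hx, hxu⟩

theorem supp_sublinear {n : ℕ} (K : ConvexBody (E n)) : Sublinear (supp K) where
  pos_hom c hc x := by
    apply le_antisymm
    · refine supp_le K fun y hy => ?_
      rw [inner_smul_right]
      exact mul_le_mul_of_nonneg_left (inner_le_supp K hy x) hc
    · obtain ⟨y, hy, hyx⟩ := exists_supp_eq K x
      rw [← hyx, ← inner_smul_right]
      exact inner_le_supp K hy _
  add_le x y := by
    refine supp_le K fun z hz => ?_
    rw [inner_add_right]
    exact add_le_add (inner_le_supp K hz x) (inner_le_supp K hz y)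

/-- Hahn-Banach (`exists_extension_of_le_sublinear`): every sublinear function is a support
function. -/
theorem exists_body {n : ℕ} {g : E n → ℝ} (hg : Sublinear g) :
    ∃ K : ConvexBody (E n), supp K = g := by
  obtain ⟨C, hC0, hC⟩ := hg.exists_bound
  -- Hahn-Banach
  have hHB : ∀ u0 : E n, ∃ y : E n, (∀ u, (inner ℝ y u : ℝ) ≤ g u) ∧ (inner ℝ y u0 : ℝ) = g u0 := by
    intro u0
    have key : ∃ l : E n →ₗ[ℝ] ℝ, (∀ u, l u ≤ g u) ∧ l u0 = g u0 := by
      by_cases hu0 : u0 = 0
      · obtain ⟨l, -, hl2⟩ := exists_extension_of_le_sublinear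
          (⟨⊥, 0⟩ : E n →ₗ.[ℝ] ℝ) g (fun c hc x => hg.pos_hom c hc.le x) hg.add_le (by
            rintro ⟨x, hx⟩
            have hx0 : x = 0 := by simpa using hx
            subst hx0
            simp [hg.map_zero])
        refine ⟨l, hl2, ?_⟩
        rw [hu0, map_zero, hg.map_zero]
      · obtain ⟨l, hl1, hl2⟩ := exists_extension_of_le_sublinear
          (LinearPMap.mkSpanSingleton u0 (g u0) hu0) g (fun c hc x => hg.pos_hom c hc.le x)
          hg.add_le (by
            rintro ⟨x, hx⟩
            obtain ⟨c, rfl⟩ := Submodule.mem_span_singleton.mp hx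
            have e1 : (LinearPMap.mkSpanSingleton u0 (g u0) hu0) ⟨c • u0, hx⟩ = c • g u0 :=
              LinearPMap.mkSpanSingleton'_apply _ _ _ _ _
            rw [e1]
            change c • g u0 ≤ g (c • u0)
            rcases le_total 0 c with hc | hc
            · rw [hg.pos_hom c hc, smul_eq_mul]
            · have h1 := hg.add_le (c • u0) ((-c) • u0)
              rw [hg.pos_hom (-c) (by linarith), ← add_smul, add_neg_cancel, zero_smul,
                hg.map_zero] at h1
              rw [smul_eq_mul]; linarith)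
        refine ⟨l, hl2, ?_⟩
        have := hl1 ⟨u0, Submodule.mem_span_singleton_self u0⟩
        exact this.trans (LinearPMap.mkSpanSingleton_apply ℝ ℝ hu0 (g u0))
    obtain ⟨l, hl, hl0⟩ := key
    refine ⟨(InnerProductSpace.toDual ℝ (E n)).symm (LinearMap.toContinuousLinearMap l), ?_, ?_⟩
    · intro u
      rw [InnerProductSpace.toDual_symm_apply]
      exact hl u
    · rw [InnerProductSpace.toDual_symm_apply]
      exact hl0
  have hcl : IsClosed {x : E n | ∀ u, (inner ℝ x u : ℝ) ≤ g u} := by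
    rw [Set.ofPred_forall]
    exact isClosed_iInter fun u => isClosed_le (by fun_prop) continuous_const
  have hbd : {x : E n | ∀ u, (inner ℝ x u : ℝ) ≤ g u} ⊆ closedBall 0 C := by
    intro x hx
    rw [mem_closedBall_zero_iff]
    have h1 := hx x
    rw [real_inner_self_eq_norm_sq] at h1
    have h2 := hC x
    by_contra hlt
    push Not at hlt
    have : C * ‖x‖ < ‖x‖ ^ 2 := by nlinarith
    linarith
  refine ⟨⟨{x : E n | ∀ u, (inner ℝ x u : ℝ) ≤ g u}, ?_, ?_, ?_⟩, ?_⟩
  · intro x hx y hy a b ha hb hab u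
    rw [inner_add_left, inner_smul_left, inner_smul_left]
    simp only [RCLike.conj_to_real]
    have h1 := mul_le_mul_of_nonneg_left (hx u) ha
    have h2 := mul_le_mul_of_nonneg_left (hy u) hb
    calc _ ≤ a * g u + b * g u := add_le_add h1 h2
      _ = g u := by rw [← add_mul, hab, one_mul]
  · exact (isCompact_closedBall (0 : E n) C).of_isClosed_subset hcl hbd
  · obtain ⟨y, hy, -⟩ := hHB 0
    exact ⟨y, hy⟩
  · funext u0
    apply le_antisymm
    · exact supp_le _ fun x hx => hx u0
    · obtain ⟨y, hy, hy0⟩ := hHB u0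
      rw [← hy0]
      exact inner_le_supp (K := (⟨{x : E n | ∀ u, (inner ℝ x u : ℝ) ≤ g u}, _, _, _⟩ :
        ConvexBody (E n))) hy u0

theorem dist_le_of_supp_aux {n : ℕ} {K L : ConvexBody (E n)} {ε : ℝ}
    (h : ∀ u, supp K u ≤ supp L u + ε * ‖u‖) {x : E n} (hx : x ∈ K) :
    ∃ y ∈ L, dist x y ≤ ε ∨ dist x y = 0 := by
  obtain ⟨y, hy, hxy⟩ := exists_norm_eq_iInf_of_complete_convex L.nonempty
    L.isClosed.isComplete L.convex x
  have hy' := (norm_eq_iInf_iff_real_inner_le_zero L.convex hy).1 hxy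
  refine ⟨y, hy, ?_⟩
  have h1 : supp L (x - y) ≤ inner ℝ y (x - y) := by
    refine supp_le L fun b hb => ?_
    have := hy' b hb
    rw [inner_sub_right] at this
    rw [real_inner_comm (x - y) b, real_inner_comm (x - y) y]
    linarith
  have h2 := inner_le_supp K hx (x - y)
  have h3 := h (x - y)
  have h4 : ‖x - y‖ ^ 2 ≤ ε * ‖x - y‖ := by
    rw [← real_inner_self_eq_norm_sq, inner_sub_left]
    linarith
  rw [dist_eq_norm]
  rcases (norm_nonneg (x - y)).eq_or_lt with h0 | h0
  · right; exact h0.symm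
  · left
    by_contra hlt
    push Not at hlt
    nlinarith

theorem supp_inj {n : ℕ} {K L : ConvexBody (E n)} (h : supp K = supp L) : K = L := by
  have aux : ∀ {K L : ConvexBody (E n)}, supp K = supp L → (K : Set (E n)) ⊆ L := by
    intro K L h x hx
    obtain ⟨y, hy, hd⟩ := dist_le_of_supp_aux (K := K) (L := L) (ε := 0)
      (fun u => by rw [h]; simp) hx
    have : dist x y = 0 := by
      rcases hd with hd | hd
      · exact le_antisymm hd dist_nonneg
      · exact hd
    rw [dist_eq_zero] at this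
    rw [this]; exact hy
  exact ConvexBody.ext (Set.Subset.antisymm (aux h) (aux h.symm))

theorem supp_add {n : ℕ} (K L : ConvexBody (E n)) (u : E n) :
    supp (K + L) u = supp K u + supp L u := by
  apply le_antisymm
  · refine supp_le _ fun x hx => ?_
    have hx' : x ∈ (K : Set (E n)) + (L : Set (E n)) := by
      rw [← ConvexBody.coe_add]; exact hx
    obtain ⟨a, ha, b, hb, rfl⟩ := hx'
    rw [inner_add_left]
    exact add_le_add (inner_le_supp K ha u) (inner_le_supp L hb u)
  · obtain ⟨a, ha, hau⟩ := exists_supp_eq K u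
    obtain ⟨b, hb, hbu⟩ := exists_supp_eq L u
    rw [← hau, ← hbu, ← inner_add_left]
    refine inner_le_supp (K + L) ?_ u
    change a + b ∈ ((K + L : ConvexBody (E n)) : Set (E n))
    rw [ConvexBody.coe_add]
    exact Set.add_mem_add ha hb

theorem supp_rot {n : ℕ} (θ : E n ≃ₗᵢ[ℝ] E n) (K : ConvexBody (E n)) (u : E n) :
    supp (rot θ K) u = supp K (θ.symm u) := by
  apply le_antisymm
  · refine supp_le _ fun x hx => ?_
    obtain ⟨y, hy, rfl⟩ := (show x ∈ θ '' (K : Set (E n)) from hx)
    have : (inner ℝ (θ y) u : ℝ) = inner ℝ y (θ.symm u) := by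
      conv_lhs => rw [← θ.apply_symm_apply u]
      rw [θ.inner_map_map]
    rw [this]
    exact inner_le_supp K hy _
  · obtain ⟨y, hy, hyu⟩ := exists_supp_eq K (θ.symm u)
    rw [← hyu]
    have : (inner ℝ (θ y) u : ℝ) = inner ℝ y (θ.symm u) := by
      conv_lhs => rw [← θ.apply_symm_apply u]
      rw [θ.inner_map_map]
    rw [← this]
    exact inner_le_supp (rot θ K) (show θ y ∈ θ '' (K : Set (E n)) from ⟨y, hy, rfl⟩) u

theorem abs_supp_sub_le {n : ℕ} (K L : ConvexBody (E n)) (u : E n) :
    |supp K u - supp L u| ≤ dist K L * ‖u‖ := by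
  have aux : ∀ K L : ConvexBody (E n), supp K u ≤ supp L u + dist K L * ‖u‖ := by
    intro K L
    refine supp_le K fun x hx => ?_
    obtain ⟨y, hy, hxy⟩ := L.isCompact.exists_infDist_eq_dist L.nonempty x
    have h1 : dist x y ≤ dist K L := by
      rw [← hxy, ← ConvexBody.hausdorffDist_coe]
      exact infDist_le_hausdorffDist_of_mem hx ConvexBody.hausdorffEDist_ne_top
    have h2 : (inner ℝ x u : ℝ) = inner ℝ y u + inner ℝ (x - y) u := by
      rw [inner_sub_left]; ring
    rw [h2]
    have h3 := real_inner_le_norm (x - y) u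
    rw [← dist_eq_norm] at h3
    exact add_le_add (inner_le_supp L hy u)
      (h3.trans (mul_le_mul_of_nonneg_right h1 (norm_nonneg u)))
  rw [abs_sub_le_iff]
  have h1 := aux K L
  have h2 := aux L K
  rw [dist_comm L K] at h2
  constructor <;> linarith

theorem dist_le_of_supp {n : ℕ} {K L : ConvexBody (E n)} {ε : ℝ} (hε : 0 ≤ ε)
    (h : ∀ u, |supp K u - supp L u| ≤ ε * ‖u‖) : dist K L ≤ ε := by
  rw [← ConvexBody.hausdorffDist_coe]
  apply hausdorffDist_le_of_mem_dist hε
  · intro x hx
    obtain ⟨y, hy, hd⟩ := dist_le_of_supp_aux (K := K) (L := L) (ε := ε)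
      (fun u => by have := (abs_sub_le_iff.1 (h u)).1; linarith) hx
    exact ⟨y, hy, hd.elim id (fun h0 => h0.le.trans hε)⟩
  · intro x hx
    obtain ⟨y, hy, hd⟩ := dist_le_of_supp_aux (K := L) (L := K) (ε := ε)
      (fun u => by have := (abs_sub_le_iff.1 (h u)).2; linarith) hx
    exact ⟨y, hy, hd.elim id (fun h0 => h0.le.trans hε)⟩

end Pool.Agent.Helper62.Mink
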